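import Pool.Agent.H37.Gh3

set_option autoImplicit false

open Pool.Agent.H37.IoD

theorem Pool.Agent.Results.MP_f1effe_lc.Yes.result (X Y : ℕ → Bool) (h : Gamma X = 1 / 2)
    (hY : Red (chi Y) (chi X)) : ∃ A : ℕ → Bool, Computable A ∧ agree Y A = 1 / 2 :=
  attain h hY
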